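import Pool.Agent.X150.Iso2

/-!
Compact convex sets in the plane with at least two circular isoptics are disks; in particular no
compact convex set has exactly two circular isoptics.
-/

open Real Set

namespace Pool.Agent.Results.MP_08e0ef_gt.Main

open Pool.Agent.X150.Iso

/-- A circle: a sphere of positive radius in the plane. -/
def IsCircle (C : Set (EuclideanSpace ℝ (Fin 2))) : Prop :=
  ∃ (c : EuclideanSpace ℝ (Fin 2)) (R : ℝ), 0 < R ∧ C = Metric.sphere c R

/-- The set of angles `α ∈ (0, π)` for which the isoptic of `S` at `α` is a circle. -/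
def circularAngles (S : Set (EuclideanSpace ℝ (Fin 2))) : Set ℝ :=
  {α | 0 < α ∧ α < π ∧ IsCircle (isoptic S α)}

theorem disk_of_two {S : Set (EuclideanSpace ℝ (Fin 2))} (hS : IsCompact S) (hc : Convex ℝ S)
    {α β : ℝ} (hα : α ∈ circularAngles S) (hβ : β ∈ circularAngles S) (hne : α ≠ β) :
    ∃ (c : EuclideanSpace ℝ (Fin 2)) (ρ : ℝ), 0 < ρ ∧ S = Metric.closedBall c ρ := by
  obtain ⟨a0, aπ, c₁, R₁, hR1, hC1⟩ := hα
  obtain ⟨b0, bπ, c₂, R₂, hR2, hC2⟩ := hβ
  have hSne : S.Nonempty := by
    by_contra hemp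
    rw [Set.not_nonempty_iff_eq_empty] at hemp
    obtain ⟨P, hP⟩ : (Metric.sphere c₁ R₁).Nonempty := NormedSpace.sphere_nonempty.mpr hR1.le
    rw [← hC1] at hP
    have h2 := hP.2
    rw [hemp] at h2
    unfold sight at h2
    simp at h2
    linarith
  have hC1' : isoptic S (π - (π - α)) = Metric.sphere c₁ R₁ := by rw [sub_sub_cancel]; exact hC1
  have hC2' : isoptic S (π - (π - β)) = Metric.sphere c₂ R₂ := by rw [sub_sub_cancel]; exact hC2
  have g1 := good_of_circle hS hSne hc (δ := π - α) (by linarith) (by linarith) hR1 hC1'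
  have g2 := good_of_circle hS hSne hc (δ := π - β) (by linarith) (by linarith) hR2 hC2'
  have hcc : c₁ = c₂ := centre_eq (H := h S) (δ₁ := π - α) (δ₂ := π - β) (by linarith)
    (by linarith) (by linarith) (by linarith) g1.periodic g2.periodic
  subst hcc
  have hcont : Continuous (fun θ => h S θ - ip c₁ θ) := by
    have h1 : Continuous (fun θ => ip c₁ θ) :=
      ip_cont.comp (Continuous.prodMk continuous_id continuous_const)
    exact (h_cont hS).sub h1
  obtain ⟨ρ, hρ⟩ := const_of_two hcont g1 g2 (by linarith) (by linarith) (by linarith)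
    (by linarith) (by intro h; apply hne; linarith)
  have hball := ball_of_const hS hSne hc hρ
  refine ⟨c₁, ρ, ?_, hball⟩
  -- positivity from the isoptic
  have h1 := g1.pos 0
  simp only [hρ] at h1
  have h2 : cos (π - α) < 1 := by
    rw [← cos_zero]
    exact cos_lt_cos_of_nonneg_of_le_pi le_rfl (by linarith) (by linarith)
  by_contra hneg
  push Not at hneg
  nlinarith

/-- (1) A compact convex set in the plane with two different circular isoptics is a disk of
positive radius. (2) No compact convex set in the plane has exactly two circular isoptics. -/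
theorem result (S : Set (EuclideanSpace ℝ (Fin 2))) (hS : IsCompact S) (hc : Convex ℝ S) :
    ((circularAngles S).Nontrivial →
      ∃ (c : EuclideanSpace ℝ (Fin 2)) (ρ : ℝ), 0 < ρ ∧ S = Metric.closedBall c ρ) ∧
    (circularAngles S).encard ≠ 2 := by
  have h1 : (circularAngles S).Nontrivial →
      ∃ (c : EuclideanSpace ℝ (Fin 2)) (ρ : ℝ), 0 < ρ ∧ S = Metric.closedBall c ρ := by
    rintro ⟨α, hα, β, hβ, hne⟩
    exact disk_of_two hS hc hα hβ hne
  refine ⟨h1, fun h2 => ?_⟩
  obtain ⟨α, β, hne, hab⟩ := Set.encard_eq_two.mp h2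
  obtain ⟨c, ρ, hρ, hball⟩ := h1 ⟨α, by rw [hab]; simp, β, by rw [hab]; simp, hne⟩
  -- all angles are circular
  have hall : Ioo 0 π ⊆ circularAngles S := by
    intro α hα
    refine ⟨hα.1, hα.2, c, ρ / cos ((π - α) / 2), ?_, ?_⟩
    · apply div_pos hρ
      exact cos_pos_of_mem_Ioo ⟨by linarith [hα.2, Real.pi_pos], by linarith [hα.1]⟩
    · rw [hball]
      have := isoptic_ball c hρ (δ := π - α) (by linarith [hα.2]) (by linarith [hα.1])
      rwa [sub_sub_cancel] at this
  have hinf : (circularAngles S).Infinite := (Ioo_infinite Real.pi_pos).mono hall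
  rw [hab] at hinf
  exact hinf (by simp)

end Pool.Agent.Results.MP_08e0ef_gt.Main
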